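import Pool.Agent.Helper89.Foulkes.Final

/-!
# Indecomposable summands of twisted Foulkes modules

Let `p` be an odd prime and `F` a field of characteristic `p`.  For every block idempotent `b` of
`F S_{2m}` and every block idempotent `B` of `F S_{2m+k}`, the `F S_{2m+k}`-module
`B ((b H^{(2^m)} ⊠ sgn)↑)` is zero or indecomposable: it is not the direct sum of two nonzero
submodules.
-/

set_option autoImplicit false

namespace Pool.Agent.Results.MP_b0baa6_al.TwistedFoulkes

open Equiv Pool.Agent.Helper89.TwistedFoulkes

universe u

/-- The block component, in the block `B` of `F S_{2m+k}`, of the module induced from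
`S_{2m} × S_k` of `(b H^{(2^m)}) ⊠ sgn` is not the direct sum of two nonzero submodules. -/
theorem result {p : ℕ} (hp : p.Prime) (hp2 : p ≠ 2) {F : Type u} [Field F] [CharP F p]
    (m k : ℕ)
    (b : MonoidAlgebra F (Perm (Fin m × Fin 2))) (hb : IsBlockIdempotent b)
    (B : MonoidAlgebra F (Perm ((Fin m × Fin 2) ⊕ Fin k))) (hB : IsBlockIdempotent B) :
    ¬ Decomposable (blockComponent
        (Rep.ind (Perm.sumCongrHom (Fin m × Fin 2) (Fin k))
          (outerSign (blockComponent (foulkes F m) b hb) k)) B hB) :=
  Pool.Agent.Helper89.Foulkes.not_decomposable p hp hp2 hb hB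

end Pool.Agent.Results.MP_b0baa6_al.TwistedFoulkes
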